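import Pool.Agent.W424.FR.Defs

/-!
FR-HD (helper313): the deterministic part for the half-plane exploration path.
-/

set_option autoImplicit false

namespace Pool.Agent.W313.FR

open H974 H12S Finset H389NS H984P MeasureTheory Filter Topology Pool.Agent.W92.DP
open Pool.Agent.W92.DPH Pool.Agent.W424.FR Pool.Agent.W424.OD
open Pool.Agent.W462.DPL (near_box box_near sizes ctr pl_close' idx_le)

theorem AE_cz {c : ℤ × ℤ} {d k : ℕ} (h : 0 < c.2 - k) (F : Finset Edg) :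
    (↑(cz F) : Set Edg) ∩ AE c d k = ↑F ∩ AE c d k := by
  unfold AE
  ext e
  constructor
  · rintro ⟨h1, h2⟩
    exact ⟨cz_sub F h1, h2⟩
  · rintro ⟨h1, h2⟩
    refine ⟨?_, h2⟩
    rw [Finset.mem_coe, mem_cz]
    refine ⟨h1, ?_⟩
    rintro ⟨h3, h4, h5⟩
    rw [Finset.mem_coe, Finset.mem_sdiff] at h2
    have h6 := h2.1
    obtain ⟨x, y, b⟩ := e
    simp only at h3 h4 h5
    subst h3
    subst h4
    unfold blk at h6
    rw [mem_RE_true] at h6
    omega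

theorem AEd_cz {c : ℤ × ℤ} {d k : ℕ} (h : 0 < c.2 - k) (F : Finset Edg) :
    (dl '' (↑(cz F) : Set Edg)ᶜ) ∩ AE c d k = (dl '' (↑F : Set Edg)ᶜ) ∩ AE c d k := by
  unfold AE
  ext e
  constructor
  · rintro ⟨⟨e', h1, rfl⟩, h2⟩
    refine ⟨⟨e', ?_, rfl⟩, h2⟩
    intro h3
    apply h1
    rw [Finset.mem_coe, mem_cz]
    refine ⟨h3, ?_⟩
    rintro ⟨h4, h5, h6⟩
    rw [Finset.mem_coe, Finset.mem_sdiff] at h2
    have h7 := h2.1
    obtain ⟨x, y, b⟩ := e'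
    simp only at h4 h5 h6
    subst h4
    subst h5
    rw [dl_t] at h7
    unfold blk at h7
    rw [mem_RE_false] at h7
    omega
  · rintro ⟨⟨e', h1, rfl⟩, h2⟩
    exact ⟨⟨e', fun h3 => h1 (cz_sub F h3), rfl⟩, h2⟩

/-- Boxes above the real axis do not see the difference. -/
theorem A3v_cz {c : ℤ × ℤ} {d k : ℕ} (h : 0 < c.2 - k) (F : Finset Edg) :
    A3v c d k ↑(cz F) ↔ A3v c d k ↑F := by
  unfold A3v Pool.Agent.W424.OD.Cl
  rw [AE_cz h]

theorem A3d_cz {c : ℤ × ℤ} {d k : ℕ} (h : 0 < c.2 - k) (F : Finset Edg) :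
    A3d c d k ↑(cz F) ↔ A3d c d k ↑F := by
  unfold A3d A3v Pool.Agent.W424.OD.Cl
  rw [AEd_cz h]

theorem abs_re_le {a z : ℂ} {r : ℝ} (h : dist a z ≤ r) : |a.re - z.re| ≤ r := by
  rw [Complex.dist_eq] at h
  have h1 := Complex.abs_re_le_norm (a - z)
  rw [Complex.sub_re] at h1
  linarith

theorem abs_im_le {a z : ℂ} {r : ℝ} (h : dist a z ≤ r) : |a.im - z.im| ≤ r := by
  rw [Complex.dist_eq] at h
  have h1 := Complex.abs_im_le_norm (a - z)
  rw [Complex.sub_im] at h1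
  linarith

theorem dist_le_add (a z : ℂ) : dist a z ≤ |a.re - z.re| + |a.im - z.im| := by
  rw [Complex.dist_eq]
  have h1 := Complex.norm_le_abs_re_add_abs_im (a - z)
  rw [Complex.sub_re, Complex.sub_im] at h1
  exact h1

theorem pv_place {δ : ℝ} (hδ : 0 < δ) (w : Vtx) (σ : St) (h1 : |w.1 - σ.1.1| ≤ 2)
    (h2 : |w.2 - σ.1.2| ≤ 2) : dist (pv δ w) ((δ : ℂ) * H984H.place σ) ≤ 9 / 2 * δ := by
  have h1' : |(w.1 : ℝ) - σ.1.1| ≤ 2 := by exact_mod_cast h1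
  have h2' : |(w.2 : ℝ) - σ.1.2| ≤ 2 := by exact_mod_cast h2
  have e1 : |((δ : ℂ) * H984H.place σ).re - δ * σ.1.1| ≤ δ / 4 := by
    obtain ⟨v, q⟩ := σ
    rw [abs_le]
    cases q <;> simp [H984H.place] <;> constructor <;> nlinarith
  have e2 : |((δ : ℂ) * H984H.place σ).im - δ * σ.1.2| ≤ δ / 4 := by
    obtain ⟨v, q⟩ := σ
    rw [abs_le]
    cases q <;> simp [H984H.place] <;> constructor <;> nlinarith
  refine (dist_le_add _ _).trans ?_
  have f1 : (pv δ w).re = δ * w.1 := rfl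
  have f2 : (pv δ w).im = δ * w.2 := rfl
  have g1 : |(pv δ w).re - ((δ : ℂ) * H984H.place σ).re| ≤ 9 / 4 * δ := by
    rw [f1]
    rw [abs_le] at e1 h1' ⊢
    constructor <;> nlinarith [e1.1, e1.2, h1'.1, h1'.2]
  have g2 : |(pv δ w).im - ((δ : ℂ) * H984H.place σ).im| ≤ 9 / 4 * δ := by
    rw [f2]
    rw [abs_le] at e2 h2' ⊢
    constructor <;> nlinarith [e2.1, e2.2, h2'.1, h2'.2]
  linarith

theorem ctr_fst {δ : ℝ} (z : ℂ) : (ctr δ (z + (δ : ℂ) * Complex.I)).1 = ⌊z.re / δ⌋ := by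
  unfold Pool.Agent.W462.DPL.ctr
  simp

theorem ctr_snd {δ : ℝ} (hδ : 0 < δ) (z : ℂ) :
    (ctr δ (z + (δ : ℂ) * Complex.I)).2 = ⌊z.im / δ⌋ := by
  have e1 : (z + (δ : ℂ) * Complex.I).im / δ = z.im / δ + 1 := by
    simp
    field_simp
  show ⌊(z + (δ : ℂ) * Complex.I).im / δ⌋ - 1 = _
  rw [e1, Int.floor_add_one]
  ring

theorem rd_near {δ r : ℝ} (hδ : 0 < δ) {z a : ℂ} (h : dist a z ≤ r) :
    rd δ a ∈ Bd (ctr δ (z + (δ : ℂ) * Complex.I)) (⌈r / δ⌉₊ + 3) := by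
  have h1 := abs_re_le h
  have h2 := abs_im_le h
  have hρ : r / δ ≤ (⌈r / δ⌉₊ : ℝ) := Nat.le_ceil _
  have a1 := Int.floor_le (z.re / δ)
  have a2 := Int.lt_floor_add_one (z.re / δ)
  have b1 := Int.floor_le (z.im / δ)
  have b2 := Int.lt_floor_add_one (z.im / δ)
  have q1 := abs_sub_round (a.re / δ)
  have q2 := abs_sub_round (a.im / δ)
  have k1 : |a.re / δ - z.re / δ| ≤ r / δ := by
    rw [← sub_div, abs_div, abs_of_pos hδ]
    exact div_le_div_of_nonneg_right h1 hδ.le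
  have k2 : |a.im / δ - z.im / δ| ≤ r / δ := by
    rw [← sub_div, abs_div, abs_of_pos hδ]
    exact div_le_div_of_nonneg_right h2 hδ.le
  rw [abs_le] at q1 q2 k1 k2
  show inR _ _ _ _ _
  rw [ctr_fst, ctr_snd hδ]
  set ρ : ℕ := ⌈r / δ⌉₊ with hρd
  set x : ℤ := round (a.re / δ) with hx
  set y : ℤ := round (a.im / δ) with hy
  set c1 : ℤ := ⌊z.re / δ⌋ with hc1
  set c2 : ℤ := ⌊z.im / δ⌋ with hc2
  have g1 : (c1 : ℝ) - (ρ + 3) ≤ x := by linarith [k1.1, k1.2, q1.1, q1.2]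
  have g2 : (x : ℝ) ≤ c1 + (ρ + 3) := by linarith [k1.1, k1.2, q1.1, q1.2]
  have g3 : (c2 : ℝ) - (ρ + 3) ≤ y := by linarith [k2.1, k2.2, q2.1, q2.2]
  have g4 : (y : ℝ) ≤ c2 + (ρ + 3) := by linarith [k2.1, k2.2, q2.1, q2.2]
  refine ⟨⟨?_, ?_⟩, ?_, ?_⟩
  · show c1 - (ρ + 3 : ℕ) ≤ x
    push_cast
    exact_mod_cast g1
  · show x ≤ c1 + (ρ + 3 : ℕ)
    push_cast
    exact_mod_cast g2
  · show c2 - (ρ + 3 : ℕ) ≤ y
    push_cast
    exact_mod_cast g3
  · show y ≤ c2 + (ρ + 3 : ℕ)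
    push_cast
    exact_mod_cast g4

theorem rd_far {δ : ℝ} (hδ : 0 < δ) {z a : ℂ} {k : ℕ}
    (h : rd δ a ∈ Bd (ctr δ (z + (δ : ℂ) * Complex.I)) k) :
    dist a z ≤ 2 * δ * k + 5 * δ := by
  have h' : inR ((ctr δ (z + (δ : ℂ) * Complex.I)).1 - k) ((ctr δ (z + (δ : ℂ) * Complex.I)).1 + k)
    ((ctr δ (z + (δ : ℂ) * Complex.I)).2 - k) ((ctr δ (z + (δ : ℂ) * Complex.I)).2 + k)
    (rd δ a) := h
  rw [ctr_fst, ctr_snd hδ] at h'
  obtain ⟨⟨h1, h2⟩, h3, h4⟩ := h'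
  have a1 := Int.floor_le (z.re / δ)
  have a2 := Int.lt_floor_add_one (z.re / δ)
  have b1 := Int.floor_le (z.im / δ)
  have b2 := Int.lt_floor_add_one (z.im / δ)
  have q1 := abs_sub_round (a.re / δ)
  have q2 := abs_sub_round (a.im / δ)
  set x : ℤ := round (a.re / δ) with hx
  set y : ℤ := round (a.im / δ) with hy
  set c1 : ℤ := ⌊z.re / δ⌋ with hc1
  set c2 : ℤ := ⌊z.im / δ⌋ with hc2
  have h1' : c1 - k ≤ x := h1
  have h2' : x ≤ c1 + k := h2
  have h3' : c2 - k ≤ y := h3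
  have h4' : y ≤ c2 + k := h4
  have g1 : (c1 : ℝ) - k ≤ x := by exact_mod_cast h1'
  have g2 : (x : ℝ) ≤ c1 + k := by exact_mod_cast h2'
  have g3 : (c2 : ℝ) - k ≤ y := by exact_mod_cast h3'
  have g4 : (y : ℝ) ≤ c2 + k := by exact_mod_cast h4'
  rw [abs_le] at q1 q2
  have e1 : δ * (z.re / δ) = z.re := by field_simp
  have e2 : δ * (z.im / δ) = z.im := by field_simp
  have e3 : δ * (a.re / δ) = a.re := by field_simp
  have e4 : δ * (a.im / δ) = a.im := by field_simp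
  have k1 : |a.re - z.re| ≤ δ * (k + 5 / 2) := by
    have e : a.re - z.re = δ * (a.re / δ - z.re / δ) := by rw [mul_sub, e1, e3]
    rw [e, abs_mul, abs_of_pos hδ]
    refine mul_le_mul_of_nonneg_left ?_ hδ.le
    rw [abs_le]
    constructor <;> linarith [q1.1, q1.2]
  have k2 : |a.im - z.im| ≤ δ * (k + 5 / 2) := by
    have e : a.im - z.im = δ * (a.im / δ - z.im / δ) := by rw [mul_sub, e2, e4]
    rw [e, abs_mul, abs_of_pos hδ]
    refine mul_le_mul_of_nonneg_left ?_ hδ.le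
    rw [abs_le]
    constructor <;> linarith [q2.1, q2.2]
  have h5 := dist_le_add a z
  linarith

/-- the nodes are points of the curve -/
theorem pl_node {N : ℕ} (hN : 0 < N) {p : ℕ → ℂ} {k : ℕ} (hk : k < N) {t : unitInterval}
    (hkt : (k : ℝ) ≤ t * N) : ∃ s : unitInterval, s ≤ t ∧ H984N.pl N p s = p k := by
  have hN' : (0 : ℝ) < N := by exact_mod_cast hN
  have hk' : (k : ℝ) ≤ N := by exact_mod_cast hk.le
  have h0 : 0 ≤ (k : ℝ) / N := by positivity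
  have h1 : (k : ℝ) / N ≤ 1 := by
    rw [div_le_one hN']
    exact hk'
  refine ⟨⟨(k : ℝ) / N, h0, h1⟩, ?_, ?_⟩
  · show (k : ℝ) / N ≤ t
    rw [div_le_iff₀ hN']
    exact hkt
  · have e : ((⟨(k : ℝ) / N, h0, h1⟩ : unitInterval) : ℝ) * N = k := by
      show (k : ℝ) / N * N = k
      field_simp
    rw [H984N.pl_seg hk (by rw [e]) (by rw [e]; linarith), e]
    simp

/-- FR-HD -/
theorem t_HD : S_HD := by
  intro hF hlat z r d δ ζ hδ hδr hd hζ hball n ω ρ hρ b1 b2 b4 hE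
  obtain ⟨t, ⟨s, hst', h1⟩, h2, g, hg0, hg1, hg⟩ := hE
  have hr : 0 < r := hδ.trans_le hδr
  have hd0 : 0 < d := by linarith
  have b3 := Pool.Agent.W347.DPHUp.up_box hδ (by linarith) hball
  have hx := rd_near hδ hg0.le
  have hy : rd δ (g 1) ∉ Bd (ctr δ (z + (δ : ℂ) * Complex.I)) ⌊d / (8 * δ)⌋₊ := by
    intro hin
    have h5 := rd_far hδ hin
    have hk : (⌊d / (8 * δ)⌋₊ : ℝ) ≤ d / (8 * δ) := Nat.floor_le (by positivity)
    have h6 : 2 * δ * (⌊d / (8 * δ)⌋₊ : ℝ) ≤ d / 4 := by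
      calc 2 * δ * (⌊d / (8 * δ)⌋₊ : ℝ) ≤ 2 * δ * (d / (8 * δ)) :=
            mul_le_mul_of_nonneg_left hk (by positivity)
        _ = d / 4 := by
            field_simp
            norm_num
    linarith
  obtain ⟨z', hz'⟩ : ∃ z' : ℂ, z' = z + (δ : ℂ) * Complex.I := ⟨_, rfl⟩
  rw [← hz'] at b1 b2 b3 b4 hx hy ⊢
  have hst : ∀ k < n, dist ((δ : ℂ) * H984H.gam ω k) ((δ : ℂ) * H984H.gam ω (k + 1)) ≤ δ / 2 := by
    intro k _
    have h := H984H.gam_step ω k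
    rw [dist_eq_norm, ← mul_sub, norm_mul, Complex.norm_real, Real.norm_eq_abs, abs_of_pos hδ,
      ← dist_eq_norm]
    nlinarith
  rcases Nat.eq_zero_or_pos n with h0 | hNpos
  · exfalso
    rw [h0, H984N.pl_apply'] at h1 h2
    simp only [Finset.range_zero, Finset.sum_empty, add_zero] at h1 h2
    linarith
  obtain ⟨k0, hk0N, ⟨k1, k2⟩, hk0⟩ := pl_close' hNpos hst s
  obtain ⟨T, hTN, ⟨T1, T2⟩, hT⟩ := pl_close' hNpos hst t
  -- the nodes before the time `T` are far from the path `g`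
  have hfar : ∀ k : ℕ, k ≤ T → ∀ u, ζ < dist (g u) ((δ : ℂ) * H984H.gam ω k) := by
    intro k hk u
    have hkT : (k : ℝ) ≤ t * n := by
      have : (k : ℝ) ≤ T := by exact_mod_cast hk
      linarith
    obtain ⟨s', hs', he⟩ := pl_node hNpos (p := fun k => (δ : ℂ) * H984H.gam ω k)
      (lt_of_le_of_lt hk hTN) hkT
    have h5 := hg s' hs' u
    rw [he] at h5
    exact h5
  set f := H984N.pl n (fun k => (δ : ℂ) * H984H.gam ω k) with hf
  have hst'' : s ≠ t := by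
    intro h
    rw [h] at h1
    linarith
  have hkT : k0 ≤ T := idx_le hNpos hst' hst'' k1 T2
  -- positions
  have hdp : ∀ k : ℕ, dist (H984N.pos δ (H984H.path ω k)) z' = dist ((δ : ℂ) * H984H.gam ω k) z := by
    intro k
    rw [hz', Pool.Agent.W347.DPHUp.dist_pos]
    rfl
  have pk : dist (H984N.pos δ (H984H.path ω k0)) z' ≤ r + δ / 2 := by
    rw [hdp]
    have := dist_triangle_left ((δ : ℂ) * H984H.gam ω k0) z (f s)
    linarith
  have pT : d / 2 - δ / 2 < dist (H984N.pos δ (H984H.path ω T)) z' := by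
    rw [hdp]
    have := dist_triangle (f t) ((δ : ℂ) * H984H.gam ω T) z
    linarith
  have p0 : d / 2 - δ / 2 < dist (H984N.pos δ (H984H.path ω 0)) z' := by
    rw [hdp]
    have h5 : d ≤ dist (0 : ℂ) z := by
      by_contra hcon
      push Not at hcon
      have h6 : (0 : ℂ) ∈ {w : ℂ | 0 < w.im} := hball (by rw [Metric.mem_ball]; exact hcon)
      have h7 : (0 : ℝ) < (0 : ℂ).im := h6
      simp at h7
    have h8 : dist (0 : ℂ) ((δ : ℂ) * H984H.gam ω 0) ≤ δ / 2 := by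
      refine (dist_le_add _ _).trans ?_
      have e1 : ((δ : ℂ) * H984H.gam ω 0).re = δ / 4 := by
        simp [H984H.gam, H984H.path, H984H.place]
        ring
      have e2 : ((δ : ℂ) * H984H.gam ω 0).im = δ / 4 := by
        simp [H984H.gam, H984H.path, H984H.place]
        ring
      rw [e1, e2]
      simp only [Complex.zero_re, Complex.zero_im, zero_sub, abs_neg]
      rw [abs_of_pos (by positivity)]
      linarith
    have h9 := dist_triangle (0 : ℂ) ((δ : ℂ) * H984H.gam ω 0) z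
    linarith
  obtain ⟨s1, _, _, _⟩ := sizes hδ hδr hd
  -- the path in the box
  have hρ1 : (1 : ℤ) ≤ ρ := by omega
  have hcp : ∀ k : ℕ, k ≤ n → k + 1 ≤ (H984H.bx ρ).len (H984H.cut ω ρ) ∧
      (H984H.bx ρ).walk (H984H.cut ω ρ) ((H984H.bx ρ).len (H984H.cut ω ρ) - 1 - k) =
        H984H.path ω k := by
    intro k hk
    apply H984H.couple hρ1 ω
    intro m hm
    have h1 := H984H.path_sd ω (Nat.zero_le m)
    have h2 : H984H.sd (H984H.path ω m).1 (0, 0) = H984H.sd (H984H.path ω 0).1 (H984H.path ω m).1 := by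
      have : (H984H.path ω 0).1 = (0, 0) := rfl
      rw [this]
      simp only [H984H.sd]
      rw [abs_sub_comm, abs_sub_comm (H984H.path ω m).1.2]
    rw [h2]
    omega
  obtain ⟨ck1, ck2⟩ := hcp k0 (by omega)
  obtain ⟨cT1, cT2⟩ := hcp T (by omega)
  obtain ⟨c01, c02⟩ := hcp 0 (by omega)
  set Ln := (H984H.bx ρ).len (H984H.cut ω ρ) with hLn
  have hbox : ∀ k : ℕ, d / 2 - δ / 2 < dist (H984N.pos δ (H984H.path ω k)) z' →
      (H984H.path ω k).1 ∉ Bd (ctr δ z') ⌊d / (8 * δ)⌋₊ := by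
    intro k hk hin
    have h5 := box_near hδ hin
    have hk' : (⌊d / (8 * δ)⌋₊ : ℝ) ≤ d / (8 * δ) := Nat.floor_le (by positivity)
    have h6 : 2 * δ * (⌊d / (8 * δ)⌋₊ : ℝ) ≤ d / 4 := by
      calc 2 * δ * (⌊d / (8 * δ)⌋₊ : ℝ) ≤ 2 * δ * (d / (8 * δ)) :=
            mul_le_mul_of_nonneg_left hk' (by positivity)
        _ = d / 4 := by
            field_simp
            norm_num
    linarith
  have hreach := (hlat δ hδ).2 (Nr (toN (H984H.bx ρ)) (cz (H984H.cut ω ρ)) (Ln - 1 - T) (Ln - 1)) g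
    (by
      rintro u w hw ⟨s', hs1, hs2, hw1, hw2⟩
      rw [walk_eq] at hw1 hw2
      have hk : Ln - 1 - s' ≤ T := by omega
      obtain ⟨c1, c2⟩ := hcp (Ln - 1 - s') (by omega)
      have e : Ln - 1 - (Ln - 1 - s') = s' := by omega
      rw [e] at c2
      rw [c2] at hw1 hw2
      have h5 := hfar (Ln - 1 - s') hk u
      have h6 := pv_place hδ w (H984H.path ω (Ln - 1 - s')) hw1 hw2
      have h7 : dist (pv δ w) ((δ : ℂ) * H984H.gam ω (Ln - 1 - s')) ≤ 9 / 2 * δ := h6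
      have h8 := dist_triangle_left (g u) ((δ : ℂ) * H984H.gam ω (Ln - 1 - s')) (pv δ w)
      linarith)
  have key := hF (toN (H984H.bx ρ)) (cz (H984H.cut ω ρ)) (ok_toN (H984H.bx_ok hρ1))
    (cz_edges (H984H.Couple_cut_sub ω ρ)) (ctr δ z') (⌈r / δ⌉₊ + 3) ⌊d / (8 * δ)⌋₊ s1 b1 b2 b3 b4
    (Ln - 1 - T) (Ln - 1 - k0) (Ln - 1) (by omega) (by omega) (by rw [len_eq]; omega)
    (by rw [walk_eq, cT2]; exact hbox T pT)
    (by rw [walk_eq, ck2]; exact near_box hδ pk)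
    (by
      have e : Ln - 1 = Ln - 1 - 0 := by omega
      rw [walk_eq, e, c02]
      exact hbox 0 p0)
    (rd δ (g 0)) (rd δ (g 1)) hx hy hreach
  rw [A3v_cz (by omega), A3d_cz (by omega)] at key
  exact key

end Pool.Agent.W313.FR
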